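import Pool.Agent.H73.TS.Targets

/-! Density from counting. -/

set_option autoImplicit false

open MeasureTheory Set Metric Filter
open scoped ENNReal Topology

namespace Pool.Agent.H60.TS

open Pool.Agent.H73.TS

theorem lim (hASY : T_ASY) (hISO : T_ISO) : T_LIM := by
  intro d L x₀ K T hd hK H
  obtain ⟨κ, hκ0, hκ⟩ : ∃ κ : ℝ, 0 ≤ κ ∧ ∀ k ∈ K, ‖k‖ ≤ κ := by
    obtain ⟨C, hC⟩ := hK.isBounded.exists_norm_le
    exact ⟨max C 0, le_max_right _ _, fun k hk => (hC k hk).trans (le_max_left _ _)⟩
  haveI : Nonempty (Fin d) := ⟨⟨0, by omega⟩⟩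
  haveI : Nontrivial (E d) := by
    unfold E
    infer_instance
  obtain ⟨B, hB⟩ : ∃ B : Set (E d), B = (fun x => L x) '' closedBall (0 : E d) 1 := ⟨_, rfl⟩
  have hBc : IsCompact B := by
    rw [hB]; exact (isCompact_closedBall _ _).image L.continuous
  have hBn : B.Nonempty := by
    rw [hB]; exact ⟨_, 0, by simp, rfl⟩
  have hAs := hASY d B hBc hBn
  obtain ⟨V, hV⟩ : ∃ V : ℝ≥0∞, V = volume (ball (0 : E d) 1) := ⟨_, rfl⟩
  have hV0 : V ≠ 0 := by
    rw [hV]; exact (measure_ball_pos _ _ one_pos).ne'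
  have hVt : V ≠ ⊤ := by
    rw [hV]; exact measure_ball_lt_top.ne
  have hBvol : volume B = ENNReal.ofReal |LinearMap.det (L : E d →ₗ[ℝ] E d)| * V := by
    rw [hB, hV]
    have h1 := Measure.addHaar_image_linearMap (volume : Measure (E d))
      (L : E d →ₗ[ℝ] E d) (closedBall (0 : E d) 1)
    have h2 : volume (closedBall (0 : E d) 1) = volume (ball (0 : E d) 1) :=
      Measure.addHaar_closedBall_eq_addHaar_ball _ _ _
    rw [h2] at h1
    exact h1
  -- the bound for each radius
  have key : ∀ R : ℝ, 0 < R →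
      volume ((⋃ t ∈ T, (fun x => t + x) '' K) ∩ ball (0 : E d) R) ≤
        ENNReal.ofReal (W ((fun x => (R + κ) • x) '' B)) * volume K := by
    intro R hR
    obtain ⟨Q, hQ⟩ : ∃ Q : Set (E d), Q = (fun x => L x) '' closedBall x₀ (R + κ) := ⟨_, rfl⟩
    have hQc : IsCompact Q := by
      rw [hQ]; exact (isCompact_closedBall _ _).image L.continuous
    have hQv : Convex ℝ Q := by
      rw [hQ]
      exact (convex_closedBall x₀ (R + κ)).linear_image (L : E d →ₗ[ℝ] E d)
    have hQn : Q.Nonempty := by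
      rw [hQ]
      exact ⟨_, x₀, by rw [mem_closedBall, dist_self]; linarith, rfl⟩
    have hWQ : W Q = W ((fun x => (R + κ) • x) '' B) := by
      rw [← (hISO d ((fun x => (R + κ) • x) '' B)).2 (L x₀)]
      congr 1
      ext y
      simp only [hQ, hB, mem_image, mem_closedBall, exists_exists_and_eq_and]
      constructor
      · rintro ⟨x, hx, rfl⟩
        refine ⟨(R + κ)⁻¹ • (x - x₀), ?_, ?_⟩
        · rw [dist_zero_right, norm_smul, Real.norm_eq_abs, abs_of_pos (by positivity)]
          rw [dist_eq_norm] at hx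
          rw [inv_mul_le_iff₀ (by linarith)]
          linarith
        · rw [map_smul, smul_smul, mul_inv_cancel₀ (by linarith), one_smul, map_sub]
          abel
      · rintro ⟨x, hx, rfl⟩
        refine ⟨x₀ + (R + κ) • x, ?_, ?_⟩
        · rw [dist_eq_norm, add_sub_cancel_left, norm_smul, Real.norm_eq_abs,
            abs_of_pos (by linarith)]
          rw [dist_zero_right] at hx
          nlinarith
        · rw [map_add, map_smul]
    obtain ⟨TR, hTR⟩ : ∃ TR : Set (E d),
        TR = {t | t ∈ T ∧ (((fun x => t + x) '' K) ∩ ball (0 : E d) R).Nonempty} := ⟨_, rfl⟩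
    have hmem : ∀ t ∈ TR, L (t + x₀) ∈ Q := by
      intro t ht
      rw [hTR] at ht
      obtain ⟨-, y, ⟨k, hk, rfl⟩, hy⟩ := ht
      rw [hQ]
      refine ⟨t + x₀, ?_, rfl⟩
      rw [mem_closedBall, dist_eq_norm, add_sub_cancel_right]
      rw [mem_ball, dist_zero_right] at hy
      have h1 : ‖t‖ ≤ ‖t + k‖ + ‖k‖ := by
        have := norm_sub_le (t + k) k
        rwa [add_sub_cancel_right] at this
      have h2 := hκ k hk
      simp only at hy
      linarith
    have hcard : ∀ S : Finset (E d), (S : Set (E d)) ⊆ TR → (S.card : ℝ) ≤ W Q := by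
      intro S hS
      refine H Q S hQc hQv hQn (fun t ht => ?_) (fun u hu => hmem u (hS hu))
      have := hS ht
      rw [hTR] at this
      exact this.1
    have hfin : TR.Finite := by
      by_contra hc
      obtain ⟨n, hn⟩ := exists_nat_gt (W Q)
      obtain ⟨S, hS, hSn⟩ := Set.Infinite.exists_subset_card_eq hc n
      have := hcard S hS
      rw [hSn] at this
      linarith
    have hsub : ((⋃ t ∈ T, (fun x => t + x) '' K) ∩ ball (0 : E d) R) ⊆
        ⋃ t ∈ hfin.toFinset, (fun x => t + x) '' K := by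
      rintro y ⟨hy, hyb⟩
      simp only [mem_iUnion] at hy ⊢
      obtain ⟨t, ht, hyt⟩ := hy
      refine ⟨t, ?_, hyt⟩
      rw [Set.Finite.mem_toFinset, hTR]
      exact ⟨ht, y, hyt, hyb⟩
    calc volume ((⋃ t ∈ T, (fun x => t + x) '' K) ∩ ball (0 : E d) R)
        ≤ volume (⋃ t ∈ hfin.toFinset, (fun x => t + x) '' K) := measure_mono hsub
      _ ≤ ∑ t ∈ hfin.toFinset, volume ((fun x => t + x) '' K) :=
          measure_biUnion_finset_le _ _
      _ = ∑ t ∈ hfin.toFinset, volume K := by
          refine Finset.sum_congr rfl (fun t _ => ?_)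
          rw [Set.image_add_left]
          exact measure_preimage_add _ _ _
      _ = (hfin.toFinset.card : ℝ≥0∞) * volume K := by
          rw [Finset.sum_const, nsmul_eq_mul]
      _ ≤ ENNReal.ofReal (W Q) * volume K := by
          gcongr
          rw [← ENNReal.ofReal_natCast]
          exact ENNReal.ofReal_le_ofReal (hcard _ (by simp))
      _ = _ := by rw [hWQ]
  -- the limit
  have hlim1 : Tendsto (fun R : ℝ => W ((fun x => (R + κ) • x) '' B) / R ^ d) atTop
      (𝓝 (volume B).toReal) := by
    have t1 : Tendsto (fun R : ℝ => W ((fun x => (R + κ) • x) '' B) / (R + κ) ^ d) atTop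
        (𝓝 (volume B).toReal) :=
      hAs.comp (tendsto_atTop_add_const_right _ κ tendsto_id)
    have t2 : Tendsto (fun R : ℝ => (1 + κ / R) ^ d) atTop (𝓝 1) := by
      have h3 : Tendsto (fun R : ℝ => κ / R) atTop (𝓝 0) :=
        tendsto_const_nhds.div_atTop tendsto_id
      have h4 := (h3.const_add 1).pow d
      simpa using h4
    have t3 := t1.mul t2
    rw [mul_one] at t3
    refine t3.congr' ?_
    filter_upwards [eventually_gt_atTop (0 : ℝ)] with R hR
    have hR1 : (R + κ) ≠ 0 := by positivity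
    have : (1 + κ / R) = (R + κ) / R := by field_simp
    rw [this, div_pow]
    field_simp
  have hlim2 : Tendsto (fun R : ℝ => ENNReal.ofReal (W ((fun x => (R + κ) • x) '' B) / R ^ d) *
      volume K / V) atTop (𝓝 (ENNReal.ofReal (volume B).toReal * volume K / V)) := by
    refine ENNReal.Tendsto.div_const ?_ (Or.inr hV0)
    refine ENNReal.Tendsto.mul_const ?_ (Or.inr hK.measure_lt_top.ne)
    exact (ENNReal.continuous_ofReal.tendsto _).comp hlim1
  have hval : ENNReal.ofReal (volume B).toReal * volume K / V =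
      volume K * ENNReal.ofReal |LinearMap.det (L : E d →ₗ[ℝ] E d)| := by
    rw [ENNReal.ofReal_toReal hBc.measure_lt_top.ne, hBvol, ENNReal.div_eq_inv_mul]
    have : V⁻¹ * (ENNReal.ofReal |LinearMap.det (L : E d →ₗ[ℝ] E d)| * V * volume K) =
        (V⁻¹ * V) * (volume K * ENNReal.ofReal |LinearMap.det (L : E d →ₗ[ℝ] E d)|) := by
      ring
    rw [this, ENNReal.inv_mul_cancel hV0 hVt, one_mul]
  rw [← hval, ← hlim2.limsup_eq]
  unfold upDens
  refine limsup_le_limsup ?_
  filter_upwards [eventually_gt_atTop (0 : ℝ)] with R hR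
  have hb : volume (ball (0 : E d) R) = ENNReal.ofReal (R ^ d) * V := by
    have := Measure.addHaar_ball_of_pos (volume : Measure (E d)) (0 : E d) hR
    rw [this, hV]
    simp [E]
  have hRd : (0 : ℝ) < R ^ d := pow_pos hR d
  calc volume ((⋃ t ∈ T, (fun x => t + x) '' K) ∩ ball (0 : E d) R) / volume (ball (0 : E d) R)
      ≤ (ENNReal.ofReal (W ((fun x => (R + κ) • x) '' B)) * volume K) /
          (ENNReal.ofReal (R ^ d) * V) := by
        rw [hb]
        gcongr
        exact key R hR
    _ = _ := by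
        rw [ENNReal.ofReal_div_of_pos hRd, ENNReal.div_eq_inv_mul, ENNReal.div_eq_inv_mul,
          ENNReal.div_eq_inv_mul, ENNReal.mul_inv]
        · ring
        · right; exact hVt
        · left; exact ENNReal.ofReal_ne_top

end Pool.Agent.H60.TS
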